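import Pool.Agent.H25.CFL.Targets

/-!
# CA1: the first case, cofinality and no union of countably many small sets (MP_e37c09_lc)
-/

open Ordinal Cardinal Order Set
open scoped ZFSet

universe u

namespace Pool.Agent.H71.CFL

open _root_.HD Pool.Agent.H25.CFL

/-- In V there is no surjection of `Iio g.ord` onto `Iio (succ g).ord`. -/
theorem not_onto_succ (g : Cardinal.{u}) : ¬ OntoHOD g.ord (succ g).ord := by
  intro h
  obtain ⟨f, hf, hfn, h1⟩ := h
  have hex : ∀ b : Iio (succ g).ord, ∃ a : Iio g.ord,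
      ZFSet.pair a.1.toZFSet b.1.toZFSet ∈ f := fun b => by
    obtain ⟨a, ha, h⟩ := h1 b.1 b.2
    exact ⟨⟨a, ha⟩, h⟩
  choose k hk using hex
  have hinj : Function.Injective k := by
    intro b b' hbb
    have h2 := hk b
    have h3 := hk b'
    rw [← hbb] at h3
    obtain ⟨w, -, hw⟩ := hfn.2 (k b).1.toZFSet (toZFSet_mem_toZFSet_iff.2 (k b).2)
    exact Subtype.ext (toZFSet_injective ((hw _ h2).trans (hw _ h3).symm))
  have h4 := Cardinal.mk_le_of_injective hinj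
  rw [Cardinal.mk_Iio_ordinal, Cardinal.mk_Iio_ordinal, Cardinal.lift_le, Cardinal.card_ord,
    Cardinal.card_ord] at h4
  exact absurd h4 (not_le.2 (Order.lt_succ _))

theorem hs_eq {δ : Ordinal.{u}} (hA : CaseA δ) {g : Cardinal.{u}} (hg : ℵ₀ ≤ g)
    (hr : ¬ g.IsRegular) (hd : δ < g.ord) : hs g.ord = (succ g).ord := by
  refine le_antisymm ?_ ?_
  · refine csInf_le' ?_
    exact ⟨Cardinal.ord_lt_ord.2 (Order.lt_succ g), not_onto_succ g⟩
  · by_contra hlt
    push Not at hlt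
    have h1 := (hA g hg hr hd).2 (hs g.ord) (Pool.Agent.H54.CL.hs_gt g.ord) hlt
    exact absurd (Pool.Agent.H54.CL.lt_hs h1) (lt_irrefl _)

/-- the ordinals of an element of `PkHOD` form a set of fewer than `g` elements. -/
theorem card_pk {g : Cardinal.{u}} {lam : Ordinal.{u}} {x : ZFSet.{u}}
    (hx : x ∈ PkHOD g.ord lam) :
    #{b : Iio lam | b.1.toZFSet ∈ x} ≤ Cardinal.lift.{u+1} g := by
  unfold PkHOD at hx
  rw [ZFSet.mem_sep] at hx
  obtain ⟨-, τ, hτ, f, -, hfn, h1⟩ := hx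
  have hex : ∀ b : {b : Iio lam | b.1.toZFSet ∈ x}, ∃ a : Iio τ,
      ZFSet.pair a.1.toZFSet b.1.1.toZFSet ∈ f := fun b => by
    have hb : b.1.1.toZFSet ∈ x := b.2
    obtain ⟨a, ha, h⟩ := h1 _ hb
    exact ⟨⟨a, ha⟩, h⟩
  choose k hk using hex
  have hinj : Function.Injective k := by
    intro b b' hbb
    have h2 := hk b
    have h3 := hk b'
    rw [← hbb] at h3
    obtain ⟨w, -, hw⟩ := hfn.2 (k b).1.toZFSet (toZFSet_mem_toZFSet_iff.2 (k b).2)
    exact Subtype.ext (Subtype.ext (toZFSet_injective ((hw _ h2).trans (hw _ h3).symm)))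
  have h4 := Cardinal.mk_le_of_injective hinj
  rw [Cardinal.mk_Iio_ordinal] at h4
  refine h4.trans (Cardinal.lift_le.2 ?_)
  exact (Cardinal.lt_ord.1 hτ).le

theorem not_su (g : Cardinal.{u}) (hg : ℵ₀ ≤ g) : ¬ SU g.ord (succ g).ord := by
  rintro ⟨x, hx1, hx2⟩
  have h1 : (⋃ k : ℕ, {b : Iio (succ g).ord | b.1.toZFSet ∈ x k}) = Set.univ := by
    refine Set.eq_univ_of_forall fun b => ?_
    obtain ⟨k, hk⟩ := hx2 b.1 b.2
    exact Set.mem_iUnion.2 ⟨k, hk⟩
  have h2 := Cardinal.mk_iUnion_le_lift (fun k : ℕ => {b : Iio (succ g).ord | b.1.toZFSet ∈ x k})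
  rw [h1, Cardinal.mk_univ, Cardinal.mk_Iio_ordinal, Cardinal.card_ord] at h2
  have h3 : (⨆ k : ℕ, Cardinal.lift.{0} #{b : Iio (succ g).ord | b.1.toZFSet ∈ x k}) ≤
      Cardinal.lift.{u+1} g := ciSup_le' fun k => by
    rw [Cardinal.lift_uzero]
    exact card_pk (hx1 k)
  rw [Cardinal.lift_uzero, Cardinal.mk_nat, Cardinal.lift_aleph0] at h2
  have h4 : ℵ₀ ≤ Cardinal.lift.{u+1} g := Cardinal.aleph0_le_lift.2 hg
  have h5 := h2.trans ((mul_le_mul' h4 h3).trans (Cardinal.mul_eq_self h4).le)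
  rw [Cardinal.lift_le] at h5
  exact absurd h5 (not_le.2 (Order.lt_succ g))

theorem pf_CA1 : T_CA1.{u} := by
  intro δ hA g hg hr hd
  rw [hs_eq hA hg hr hd]
  refine ⟨?_, not_su g hg⟩
  exact (Cardinal.isRegular_succ hg).cof_eq

end Pool.Agent.H71.CFL
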