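import Pool.Agent.H25.CFL.Targets

/-!
# S2: unions of countably many small sets, ordinals of countable cofinality (MP_e37c09_lc)
-/

open Ordinal Cardinal Order Set
open scoped ZFSet

universe u

namespace Pool.Agent.H71.CFL

open _root_.HD Pool.Agent.H25.CFL

theorem mono_pk {γ b lam : Ordinal.{u}} (h : b ≤ lam) {x : ZFSet.{u}}
    (hx : x ∈ PkHOD γ b) : x ∈ PkHOD γ lam := by
  unfold PkHOD at hx ⊢
  rw [ZFSet.mem_sep, ZFSet.mem_powerset] at hx ⊢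
  refine ⟨fun z hz => ?_, hx.2⟩
  obtain ⟨a, ha, rfl⟩ := mem_toZFSet_iff.1 (hx.1 hz)
  exact toZFSet_mem_toZFSet_iff.2 (ha.trans_le h)

theorem seq_of_cof {γ : Ordinal.{u}} (hγ : γ.cof = ℵ₀) :
    ∃ s : ℕ → Ordinal.{u}, (∀ k, s k < γ) ∧ ∀ b < γ, ∃ k, b < s k := by
  have hl : IsSuccLimit γ := Ordinal.aleph0_le_cof.1 hγ.ge
  obtain ⟨ι, f, hf, hι⟩ := Ordinal.exists_lsub_cof γ
  have h1 : #ι = ℵ₀ := hι.trans hγ
  have h2 : Nonempty (ℕ ≃ ι) := by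
    have h3 : Denumerable ι := (Cardinal.denumerable_iff.2 h1).some
    exact ⟨(Denumerable.eqv ι).symm⟩
  obtain ⟨e⟩ := h2
  refine ⟨fun k => f (e k), fun k => ?_, fun b hb => ?_⟩
  · rw [← hf]
    exact Ordinal.lt_lsub f _
  · have h3 : succ b < Ordinal.lsub f := by
      rw [hf]
      exact hl.succ_lt hb
    obtain ⟨i, hi⟩ := Ordinal.lt_lsub_iff.1 h3
    refine ⟨e.symm i, ?_⟩
    have h4 : e (e.symm i) = i := Equiv.apply_symm_apply _ _
    change b < f (e (e.symm i))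
    rw [h4]
    exact lt_of_lt_of_le (Order.lt_succ b) hi

theorem pf_S2 : Pool.Agent.H25.CFL.T_S2.{u} := by
  intro γ lam hcof hb
  obtain ⟨s, hs1, hs2⟩ := seq_of_cof hcof
  choose x hx1 hx2 using fun k => hb (s k) (hs1 k)
  refine ⟨fun n => x n.unpair.1 n.unpair.2, fun n => mono_pk (hs1 _).le (hx1 _ _),
    fun b hb => ?_⟩
  obtain ⟨k, hk⟩ := hs2 b hb
  obtain ⟨l, hl⟩ := hx2 k b hk
  refine ⟨Nat.pair k l, ?_⟩
  simp only [Nat.unpair_pair]
  exact hl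

end Pool.Agent.H71.CFL
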